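import Mathlib

/-!
# A nearly unconditional basis which is not truncation quasi-greedy

The index set consists of trees `L = 0, 1, 2, ...` of depth `L`: the nodes of level `k ≤ L` of the
tree `L` are `(L, k, i)`, `i < 8 ^ k`, and the parent of `(L, k + 1, i)` is `(L, k, i / 8)`.
The norm is the maximum of the supremum norm and of the numbers
`∑ i < 8 ^ (k + 1), |a (L, k + 1, i) - a (L, k, i / 8) / 4|`, `k < L`.
-/

set_option autoImplicit false

open Finset

namespace Pool.Agent.Zk56.NU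

/-- index set: (tree, level, position) -/
abbrev Idx := ℕ × ℕ × ℕ

/-- the coordinates of the ambient space -/
abbrev Cd := Idx ⊕ (ℕ × ℕ × (ℕ → Bool))

/-- the ambient space -/
abbrev E := lp (fun _ : Cd => ℝ) ⊤

/-- signs -/
def sg (b : Bool) : ℝ := if b then 1 else -1

lemma abs_sg (b : Bool) : |sg b| = 1 := by
  cases b <;> simp [sg]

/-- the difference of the value at a node and a quarter of the value at the parent -/
noncomputable def D (L k i : ℕ) : (Idx → ℝ) →ₗ[ℝ] ℝ :=
  LinearMap.proj (R := ℝ) (φ := fun _ : Idx => ℝ) (L, k + 1, i)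
    - (1 / 4 : ℝ) • LinearMap.proj (R := ℝ) (φ := fun _ : Idx => ℝ) (L, k, i / 8)

lemma D_apply (L k i : ℕ) (a : Idx → ℝ) : D L k i a = a (L, k + 1, i) - a (L, k, i / 8) / 4 := by
  simp [D]; ring

/-- the functionals -/
noncomputable def Lam (φ : ℕ × ℕ × (ℕ → Bool)) : (Idx → ℝ) →ₗ[ℝ] ℝ :=
  if φ.2.1 < φ.1 then ∑ i ∈ range (8 ^ (φ.2.1 + 1)), sg (φ.2.2 i) • D φ.1 φ.2.1 i else 0

lemma Lam_apply (L k : ℕ) (s : ℕ → Bool) (a : Idx → ℝ) :
    Lam (L, k, s) a =
      if k < L then ∑ i ∈ range (8 ^ (k + 1)), sg (s i) * D L k i a else 0 := by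
  unfold Lam
  dsimp only
  split_ifs with h
  · simp [LinearMap.sum_apply]
  · simp

lemma sum_div (h : ℕ → ℝ) (N : ℕ) : ∑ i ∈ range (8 * N), h (i / 8) = 8 * ∑ j ∈ range N, h j := by
  induction N with
  | zero => simp
  | succ N ih =>
    rw [show 8 * (N + 1) = 8 * N + 1 + 1 + 1 + 1 + 1 + 1 + 1 + 1 by ring]
    simp only [sum_range_succ]
    rw [ih]
    have e : ∀ r, r < 8 → (8 * N + r) / 8 = N := fun r hr => by omega
    have e0 := e 0 (by norm_num)
    have e1 := e 1 (by norm_num)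
    have e2 := e 2 (by norm_num)
    have e3 := e 3 (by norm_num)
    have e4 := e 4 (by norm_num)
    have e5 := e 5 (by norm_num)
    have e6 := e 6 (by norm_num)
    have e7 := e 7 (by norm_num)
    simp only [add_assoc] at *
    rw [Nat.add_zero] at e0
    rw [e0, e1, e2, e3, e4, e5, e6, e7]
    ring

lemma abs_Lam_le (L k : ℕ) (s : ℕ → Bool) (a : Idx → ℝ) :
    |Lam (L, k, s) a| ≤ (if k < L then
      ∑ i ∈ range (8 ^ (k + 1)), |a (L, k + 1, i)| + 2 * ∑ j ∈ range (8 ^ k), |a (L, k, j)| else 0) := by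
  rw [Lam_apply]
  split_ifs with h
  · have h1 : 2 * ∑ j ∈ range (8 ^ k), |a (L, k, j)|
        = ∑ i ∈ range (8 ^ (k + 1)), |a (L, k, i / 8)| / 4 := by
      rw [← sum_div_distrib, pow_succ', sum_div (fun j => |a (L, k, j)|)]
      ring
    rw [h1, ← sum_add_distrib]
    refine (abs_sum_le_sum_abs _ _).trans (sum_le_sum fun i _ => ?_)
    rw [abs_mul, abs_sg, one_mul, D_apply]
    refine (abs_sub _ _).trans ?_
    rw [abs_div]
    norm_num
  · simp
where
  sum_div_distrib {ι : Type} {s : Finset ι} {f : ι → ℝ} {c : ℝ} :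
    (∑ i ∈ s, f i) / c = ∑ i ∈ s, f i / c := Finset.sum_div _ _ _

lemma sum_single_le (n : Idx) (L k N : ℕ) :
    ∑ i ∈ range N, |(Pi.single n (1 : ℝ) : Idx → ℝ) (L, k, i)| ≤ 1 := by
  have h : ∀ i, |(Pi.single n (1 : ℝ) : Idx → ℝ) (L, k, i)| ≤ if n.2.2 = i then 1 else 0 := by
    intro i
    by_cases hn : (L, k, i) = n
    · subst hn
      simp
    · rw [Pi.single_eq_of_ne hn]
      split_ifs <;> simp
  refine (sum_le_sum fun i _ => h i).trans ?_
  rw [sum_ite_eq]
  split_ifs <;> simp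

/-- the coordinates of a vector in the ambient space -/
noncomputable def co (a : Idx → ℝ) : Cd → ℝ
  | Sum.inl m => a m
  | Sum.inr φ => Lam φ a

lemma co_single_le (n : Idx) (c : Cd) : ‖co (Pi.single n 1) c‖ ≤ 3 := by
  rcases c with m | ⟨L, k, s⟩
  · change |(Pi.single n (1 : ℝ) : Idx → ℝ) m| ≤ 3
    by_cases h : m = n
    · subst h; simp
    · rw [Pi.single_eq_of_ne h]; simp
  · change |Lam (L, k, s) (Pi.single n 1)| ≤ 3
    refine (abs_Lam_le L k s _).trans ?_
    split_ifs with h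
    · have h1 := sum_single_le n L (k + 1) (8 ^ (k + 1))
      have h2 := sum_single_le n L k (8 ^ k)
      linarith
    · norm_num

/-- the unit vectors -/
noncomputable def e (n : Idx) : E :=
  ⟨co (Pi.single n 1), by
    change Memℓp (E := fun _ : Cd => ℝ) (co (Pi.single n 1)) ⊤
    rw [memℓp_infty_iff]
    refine ⟨3, ?_⟩
    rintro _ ⟨c, rfl⟩
    exact co_single_le n c⟩

lemma e_apply (n : Idx) (c : Cd) : (e n : Cd → ℝ) c = co (Pi.single n 1) c := rfl

lemma norm_e_le (n : Idx) : ‖e n‖ ≤ 3 :=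
  lp.norm_le_of_forall_le (by norm_num) fun c => co_single_le n c

/-- the space -/
noncomputable def X : Submodule ℝ E := (Submodule.span ℝ (Set.range e)).topologicalClosure

lemma e_mem (n : Idx) : e n ∈ X :=
  Submodule.le_topologicalClosure _ (Submodule.subset_span ⟨n, rfl⟩)

/-- the restriction of a vector to the index set -/
def cf (f : E) : Idx → ℝ := fun m => (f : Cd → ℝ) (Sum.inl m)

lemma cf_add (f g : E) : cf (f + g) = cf f + cf g := rfl
lemma cf_smul (c : ℝ) (f : E) : cf (c • f) = c • cf f := rfl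

/-- the vectors which satisfy the relation between the coordinates -/
noncomputable def W (φ : ℕ × ℕ × (ℕ → Bool)) : Submodule ℝ E where
  carrier := {f | (f : Cd → ℝ) (Sum.inr φ) = Lam φ (cf f)}
  add_mem' := by
    intro f g hf hg
    simp only [Set.mem_ofPred_eq] at *
    rw [cf_add, map_add, ← hf, ← hg]
    rfl
  zero_mem' := by
    simp only [Set.mem_ofPred_eq]
    have : cf (0 : E) = 0 := rfl
    rw [this, map_zero]
    rfl
  smul_mem' := by
    intro c f hf
    simp only [Set.mem_ofPred_eq] at *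
    rw [cf_smul, map_smul, ← hf]
    rfl

lemma cont_eval (c : Cd) : Continuous fun f : E => (f : Cd → ℝ) c := by
  have : Fact ((1 : ENNReal) ≤ ⊤) := ⟨le_top⟩
  exact (continuous_apply c).comp (lp.uniformContinuous_coe (E := fun _ : Cd => ℝ) (p := ⊤)).continuous

lemma isClosed_W (φ : ℕ × ℕ × (ℕ → Bool)) : IsClosed (W φ : Set E) := by
  obtain ⟨L, k, s⟩ := φ
  change IsClosed {f : E | (f : Cd → ℝ) (Sum.inr (L, k, s)) = Lam (L, k, s) (cf f)}
  have h2 : Continuous fun f : E => Lam (L, k, s) (cf f) := by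
    simp only [Lam_apply, D_apply]
    split_ifs with h
    · refine continuous_finset_sum _ fun i _ => ?_
      refine continuous_const.mul ?_
      exact (cont_eval _).sub ((cont_eval _).div_const 4)
    · exact continuous_const
  have h1 : Continuous fun f : E => ((f : Cd → ℝ) (Sum.inr (L, k, s)) : ℝ) := cont_eval _
  exact isClosed_eq h1 h2

lemma X_le_W (φ : ℕ × ℕ × (ℕ → Bool)) : X ≤ W φ := by
  apply Submodule.topologicalClosure_minimal _ _ (isClosed_W φ)
  rw [Submodule.span_le]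
  rintro _ ⟨n, rfl⟩
  rfl

lemma rel {f : E} (hf : f ∈ X) (φ : ℕ × ℕ × (ℕ → Bool)) :
    (f : Cd → ℝ) (Sum.inr φ) = Lam φ (cf f) := X_le_W φ hf

lemma abs_cf_le (f : E) (m : Idx) : |cf f m| ≤ ‖f‖ :=
  lp.norm_apply_le_norm (by simp) f (Sum.inl m)

lemma sum_D_le {f : E} (hf : f ∈ X) {L k : ℕ} (h : k < L) :
    ∑ i ∈ range (8 ^ (k + 1)), |D L k i (cf f)| ≤ ‖f‖ := by
  classical
  let s : ℕ → Bool := fun i => decide (0 ≤ D L k i (cf f))
  have h1 : Lam (L, k, s) (cf f) = ∑ i ∈ range (8 ^ (k + 1)), |D L k i (cf f)| := by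
    rw [Lam_apply, if_pos h]
    refine sum_congr rfl fun i _ => ?_
    by_cases h0 : 0 ≤ D L k i (cf f)
    · rw [abs_of_nonneg h0]
      simp [sg, s, h0]
    · rw [abs_of_neg (not_le.1 h0)]
      simp [sg, s, h0]
  rw [← h1, ← rel hf]
  exact (le_abs_self _).trans (lp.norm_apply_le_norm (by simp) f _)

/-- the number of large coefficients on a level -/
noncomputable def cnt (f : E) (a : ℝ) (L k : ℕ) : ℝ :=
  (((range (8 ^ k)).filter fun i => a ≤ |cf f (L, k, i)|).card : ℝ)

lemma cnt_eq (f : E) (a : ℝ) (L k : ℕ) :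
    cnt f a L k = ∑ i ∈ range (8 ^ k), if a ≤ |cf f (L, k, i)| then (1 : ℝ) else 0 := by
  unfold cnt
  rw [← sum_boole]

lemma cnt_bound (j : ℕ) : ∃ c : ℝ, 0 ≤ c ∧ ∀ (f : E), f ∈ X → (∀ m, |cf f m| ≤ 1) →
    ∀ a : ℝ, 0 < a → 1 < 2 ^ j * a → ∀ L k : ℕ, k ≤ L → a * cnt f a L k ≤ c * ‖f‖ := by
  induction j with
  | zero =>
    refine ⟨0, le_rfl, fun f _ hf1 a ha h1 L k _ => ?_⟩
    rw [cnt_eq, sum_eq_zero, mul_zero, zero_mul]
    intro i _
    rw [if_neg]
    have := hf1 (L, k, i)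
    rw [pow_zero, one_mul] at h1
    linarith
  | succ j ih =>
    obtain ⟨c, hc, ih⟩ := ih
    refine ⟨2 + 4 * c, by linarith, fun f hf hf1 a ha h1 L k hk => ?_⟩
    have hn : 0 ≤ ‖f‖ := norm_nonneg f
    rcases k with _ | k
    · have h2 : cnt f a L 0 ≤ ‖f‖ / a := by
        rw [cnt_eq, pow_zero, range_one, sum_singleton]
        split_ifs with h3
        · rw [le_div_iff₀ ha, one_mul]
          exact h3.trans (abs_cf_le f _)
        · positivity
      rw [le_div_iff₀ ha] at h2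
      nlinarith
    · have h2 := ih f hf hf1 (2 * a) (by linarith) (by
        rw [pow_succ] at h1; linarith) L k (by omega)
      have h3 : cnt f a L (k + 1) ≤ (∑ i ∈ range (8 ^ (k + 1)), 2 / a * |D L k i (cf f)|)
          + 8 * cnt f (2 * a) L k := by
        rw [cnt_eq, cnt_eq f (2 * a), ← sum_div (fun j => if 2 * a ≤ |cf f (L, k, j)| then (1 : ℝ) else 0),
          ← pow_succ', ← sum_add_distrib]
        refine sum_le_sum fun i _ => ?_
        have hD := D_apply L k i (cf f)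
        have h0 : 0 ≤ 2 / a * |D L k i (cf f)| := by positivity
        split_ifs with h4 h5 h5
        · linarith
        · have h6 : a / 2 ≤ |D L k i (cf f)| := by
            rw [hD]
            have h7 : |cf f (L, k, i / 8) / 4| = |cf f (L, k, i / 8)| / 4 := by
              rw [abs_div]; norm_num
            have h8 := abs_sub_abs_le_abs_sub (cf f (L, k + 1, i)) (cf f (L, k, i / 8) / 4)
            rw [h7] at h8
            linarith
          have h9 : 2 / a * (a / 2) ≤ 2 / a * |D L k i (cf f)| :=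
            mul_le_mul_of_nonneg_left h6 (by positivity)
          have h10 : 2 / a * (a / 2) = 1 := by field_simp
          linarith
        · linarith
        · linarith
      rw [← mul_sum] at h3
      have h4 := sum_D_le hf (show k < L by omega)
      have h5 : a * cnt f a L (k + 1) ≤ 2 * ∑ i ∈ range (8 ^ (k + 1)), |D L k i (cf f)|
          + 4 * (2 * a * cnt f (2 * a) L k) := by
        calc a * cnt f a L (k + 1) ≤ a * (2 / a * (∑ i ∈ range (8 ^ (k + 1)), |D L k i (cf f)|)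
              + 8 * cnt f (2 * a) L k) := mul_le_mul_of_nonneg_left h3 ha.le
          _ = _ := by field_simp; ring
      nlinarith

lemma near (a : ℝ) (ha : 0 < a) : ∃ C : ℝ, 0 ≤ C ∧ ∀ f : E, f ∈ X → (∀ m, |cf f m| ≤ 1) →
    ∀ A : Finset Idx, (∀ n ∈ A, a ≤ |cf f n|) → ‖∑ n ∈ A, cf f n • e n‖ ≤ C * ‖f‖ := by
  obtain ⟨j, hj⟩ := pow_unbounded_of_one_lt (1 / a) (by norm_num : (1 : ℝ) < 2)
  rw [div_lt_iff₀ ha] at hj
  obtain ⟨c, hc, hb⟩ := cnt_bound j
  refine ⟨1 + 3 * (c / a), by positivity, fun f hf hf1 A hA => ?_⟩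
  have hn : 0 ≤ ‖f‖ := norm_nonneg f
  have hca : 0 ≤ c / a := by positivity
  have hcnt : ∀ L k : ℕ, k ≤ L → cnt f a L k ≤ c / a * ‖f‖ := by
    intro L k hk
    have := hb f hf hf1 a ha hj L k hk
    rw [div_mul_eq_mul_div, le_div_iff₀ ha]
    linarith
  set g : E := ∑ n ∈ A, cf f n • e n with hg
  have hgX : g ∈ X := Submodule.sum_mem _ fun n _ => Submodule.smul_mem _ _ (e_mem n)
  have hcf : ∀ m, cf g m = if m ∈ A then cf f m else 0 := by
    intro m
    have h1 : cf g m = ∑ n ∈ A, cf f n * (Pi.single n (1 : ℝ) : Idx → ℝ) m := by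
      rw [hg]
      unfold cf
      rw [lp.coeFn_sum, Finset.sum_apply]
      rfl
    rw [h1]
    rw [← Finset.sum_ite_eq A m (fun n => cf f n)]
    refine sum_congr rfl fun n _ => ?_
    by_cases h : m = n
    · subst h; simp
    · rw [Pi.single_eq_of_ne h, if_neg h, mul_zero]
  have hle : ∀ m, |cf g m| ≤ if a ≤ |cf f m| then (1 : ℝ) else 0 := by
    intro m
    rw [hcf]
    by_cases h : m ∈ A
    · rw [if_pos h, if_pos (hA m h)]
      exact hf1 m
    · rw [if_neg h, abs_zero]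
      split_ifs <;> norm_num
  refine lp.norm_le_of_forall_le (by positivity) ?_
  rintro (m | ⟨L, k, s⟩)
  · change |cf g m| ≤ _
    rw [hcf]
    have h1 := abs_cf_le f m
    have h2 : 0 ≤ 3 * (c / a) * ‖f‖ := by positivity
    split_ifs
    · nlinarith
    · rw [abs_zero]; nlinarith
  · rw [rel hgX]
    change |Lam (L, k, s) (cf g)| ≤ _
    refine (abs_Lam_le L k s _).trans ?_
    split_ifs with h
    · have h1 : ∑ i ∈ range (8 ^ (k + 1)), |cf g (L, k + 1, i)| ≤ cnt f a L (k + 1) := by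
        rw [cnt_eq]
        exact sum_le_sum fun i _ => hle _
      have h2 : ∑ i ∈ range (8 ^ k), |cf g (L, k, i)| ≤ cnt f a L k := by
        rw [cnt_eq]
        exact sum_le_sum fun i _ => hle _
      have h3 := hcnt L (k + 1) (by omega)
      have h4 := hcnt L k (by omega)
      nlinarith
    · positivity

/-- the nodes of the tree `L` -/
def nodes (L : ℕ) : Finset Idx :=
  (range (L + 1)).biUnion fun k => (range (8 ^ k)).image fun i => (L, k, i)

lemma mem_nodes (L : ℕ) (n : Idx) : n ∈ nodes L ↔ n.1 = L ∧ n.2.1 ≤ L ∧ n.2.2 < 8 ^ n.2.1 := by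
  obtain ⟨L', k, i⟩ := n
  simp only [nodes, mem_biUnion, mem_range, mem_image, Prod.mk.injEq]
  constructor
  · rintro ⟨k', h1, i', h2, rfl, rfl, rfl⟩
    exact ⟨rfl, by omega, h2⟩
  · rintro ⟨h0, h1, h2⟩
    exact ⟨k, by omega, i, h2, h0.symm, rfl, rfl⟩

/-- the vector with small norm -/
noncomputable def vec (L : ℕ) : E := ∑ n ∈ nodes L, ((1 / 4 : ℝ) ^ n.2.1) • e n

lemma cf_sum (A : Finset Idx) (w : Idx → ℝ) (m : Idx) :
    cf (∑ n ∈ A, w n • e n) m = if m ∈ A then w m else 0 := by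
  have h1 : cf (∑ n ∈ A, w n • e n) m = ∑ n ∈ A, w n * (Pi.single n (1 : ℝ) : Idx → ℝ) m := by
    unfold cf
    rw [lp.coeFn_sum, Finset.sum_apply]
    rfl
  rw [h1]
  rw [← Finset.sum_ite_eq A m (fun n => w n)]
  refine sum_congr rfl fun n _ => ?_
  by_cases h : m = n
  · subst h; simp
  · rw [Pi.single_eq_of_ne h, if_neg h, mul_zero]

lemma vec_mem (L : ℕ) : vec L ∈ X :=
  Submodule.sum_mem _ fun n _ => Submodule.smul_mem _ _ (e_mem n)

lemma cf_vec (L : ℕ) (m : Idx) : cf (vec L) m = if m ∈ nodes L then (1 / 4 : ℝ) ^ m.2.1 else 0 :=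
  cf_sum _ _ _

lemma norm_vec_le (L : ℕ) : ‖vec L‖ ≤ 1 := by
  refine lp.norm_le_of_forall_le (by norm_num) ?_
  rintro (m | ⟨L', k, s⟩)
  · change |cf (vec L) m| ≤ 1
    rw [cf_vec]
    split_ifs
    · rw [abs_of_nonneg (by positivity)]
      exact pow_le_one₀ (by norm_num) (by norm_num)
    · simp
  · rw [rel (vec_mem L), Lam_apply]
    split_ifs with h
    · rw [sum_eq_zero]
      · simp
      intro i hi
      rw [mem_range] at hi
      rw [D_apply, cf_vec, cf_vec]
      simp only [mem_nodes]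
      by_cases hL : L' = L
      · subst hL
        have h3 : i / 8 < 8 ^ k := by
          rw [pow_succ'] at hi
          omega
        rw [if_pos ⟨rfl, by omega, hi⟩, if_pos ⟨rfl, by omega, h3⟩]
        ring
      · rw [if_neg (fun h => hL h.1), if_neg (fun h => hL h.1)]
        ring
    · simp

lemma flat_ge (L : ℕ) : 8 ^ (L + 1) * (3 / 4 : ℝ) ≤ ‖∑ n ∈ nodes (L + 1), e n‖ := by
  have hg : (∑ n ∈ nodes (L + 1), e n) = ∑ n ∈ nodes (L + 1), (1 : ℝ) • e n := by simp
  have hX : (∑ n ∈ nodes (L + 1), e n) ∈ X := Submodule.sum_mem _ fun n _ => e_mem n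
  have h1 := lp.norm_apply_le_norm (E := fun _ : Cd => ℝ) (p := ⊤) (by simp)
    (∑ n ∈ nodes (L + 1), e n) (Sum.inr (L + 1, L, fun _ => true))
  refine le_trans ?_ h1
  rw [rel hX, Lam_apply, if_pos (Nat.lt_succ_self L)]
  refine le_trans ?_ (le_abs_self _)
  have h2 : ∀ i ∈ range (8 ^ (L + 1)),
      sg ((fun _ : ℕ => true) i) * D (L + 1) L i (cf (∑ n ∈ nodes (L + 1), e n)) = 3 / 4 := by
    intro i hi
    rw [mem_range] at hi
    have h3 : i / 8 < 8 ^ L := by
      rw [pow_succ'] at hi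
      omega
    rw [D_apply, hg, cf_sum, cf_sum]
    simp only [mem_nodes]
    rw [if_pos ⟨trivial, le_rfl, hi⟩, if_pos ⟨trivial, by omega, h3⟩]
    norm_num [sg]
  rw [sum_congr rfl h2, sum_const, card_range, nsmul_eq_mul]
  push_cast
  exact le_rfl

end Pool.Agent.Zk56.NU
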